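import Pool.Statements.S07563
import Pool.Agent.H41.MK.W.Fin
import Pool.Graph.R_pool_sql_team_seeded_35f281b4.K7.H27.MK.SkelF
import Pool.Graph.R_pool_sql_team_seeded_35f281b4.K7.H27.MK.UnW

/-!
# Mäkelä's question: an infinite ternary word without abelian squares of period at least two

The word is the image of an infinite word (the skeleton of the library: a binary sequence without additive squares in the
rotating weights `1, ω, ω²`) under two blocks of 2500 letters. The library
(`Pool.Graph...K7.H27.MK`) reduces the statement to a finite certificate for the two blocks: no coincidence
`p(r0) + p(r2) = 2 p(r1)` modulo the lattice of the differences of the blocks apart from the trivial ones.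
The blocks were found in this run by a sequential Monte Carlo search, and the certificate is checked by the
kernel (`Pool.Agent.H41.MK.W`, `decide +kernel`) with packed tables (`Pool.Agent.H41.MK.Fast`).
-/

set_option autoImplicit false
open Pool Pool.MP_1f24c5_co

namespace Pool.Agent.S07563

/-- There is an infinite word over {0,1,2} in which no factor uv with u, v of equal length at least 2 has u and v containing each letter the same number of times. -/
theorem result :
    ∃ w : ℕ → Fin 3, ∀ i n : ℕ, 2 ≤ n →
      ¬ (∀ a : Fin 3,
          ((Finset.range n).filter (fun k => w (i + k) = a)).card =
          ((Finset.range n).filter (fun k => w (i + n + k) = a)).card) := by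
  open Pool.Agent.K7.H27.MK Pool.Agent.H41.MK in
  exact ⟨xw W.wd SkelF.s 2500, fun i n hn hc =>
    main_xw om_rel SkelF.s_lt (by norm_num) (by norm_num) W.cert SkelF.s_nosq i n hn hc⟩

end Pool.Agent.S07563
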