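import Pool.Statements.S09473
import Pool.Agent.H9.IDP.Poly6

set_option autoImplicit false
open Pool Pool.MP_72f7ea_co

namespace Pool.Agent.S09473

/-- For every finite claw-free graph whose stable set polytope is cut out by nonnegativity, clique and odd-cycle inequalities, every integer point of k times that polytope (k ≥ 1) is a sum of k integer points of the polytope. -/
theorem result :
  ∀ (V : Type) [Fintype V] [DecidableEq V] (G : SimpleGraph V) (P : Set (V → ℝ)),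
    P = convexHull ℝ {y : V → ℝ | ∃ S : Finset V, G.IsIndepSet (S : Set V) ∧
          y = fun v => if v ∈ S then (1 : ℝ) else 0} →
    (∀ c a b d : V, G.Adj c a → G.Adj c b → G.Adj c d → a ≠ b → a ≠ d → b ≠ d →
        G.Adj a b ∨ G.Adj a d ∨ G.Adj b d) →
    P = {x : V → ℝ | (∀ v, 0 ≤ x v) ∧
          (∀ K : Finset V, G.IsClique (K : Set V) → ∑ v ∈ K, x v ≤ 1) ∧
          (∀ (u : V) (p : G.Walk u u), p.IsCycle → Odd p.length →
              ∑ v ∈ p.support.toFinset, x v ≤ ((p.length : ℝ) - 1) / 2)} →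
    ∀ k : ℕ, 1 ≤ k → ∀ x : V → ℤ, (∃ z ∈ P, ∀ v, (x v : ℝ) = (k : ℝ) * z v) →
      ∃ y : Fin k → V → ℤ, (∀ i, (fun v => (y i v : ℝ)) ∈ P) ∧ ∀ v, ∑ i, y i v = x v := by
  intro V _ _ G P hP1 hc hP2 k hk x hx
  obtain ⟨z, hz, hxz⟩ := hx
  have hP3 : P = Pool.Agent.H9.IDP.HS G := hP2
  have hzH : z ∈ Pool.Agent.H9.IDP.HS G := hP3 ▸ hz
  have hk0 : (0 : ℝ) ≤ k := Nat.cast_nonneg k
  have hx0 : ∀ v, 0 ≤ x v := by
    intro v
    have h1 : (0 : ℝ) ≤ (x v : ℝ) := by
      rw [hxz v]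
      exact mul_nonneg hk0 (hzH.1 v)
    exact_mod_cast h1
  have hw : ∀ v, ((x v).toNat : ℤ) = x v := fun v => Int.toNat_of_nonneg (hx0 v)
  have hwz : ∀ v, (((x v).toNat : ℕ) : ℝ) = (k : ℝ) * z v := by
    intro v
    rw [← hxz v]
    exact_mod_cast hw v
  obtain ⟨φ, hφ, hF⟩ := Pool.Agent.H9.IDP.main (G := G) hc (hP3.symm.trans hP1) k
    (fun v => (x v).toNat) (Pool.Agent.H9.IDP.good_of hzH hwz)
  refine ⟨fun i v => if i ∈ φ v then 1 else 0, ?_, ?_⟩
  · intro i
    rw [hP1]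
    apply subset_convexHull
    refine ⟨Finset.univ.filter fun v => i ∈ φ v, ?_, ?_⟩
    · intro a ha b hb _ hadj
      simp only [Finset.coe_filter, Finset.mem_univ, true_and, Set.mem_ofPred_eq] at ha hb
      exact hφ a b hadj i ha hb
    · funext v
      by_cases h : i ∈ φ v <;> simp [h]
  · intro v
    have h1 : (φ v).card = (x v).toNat := hF v
    rw [← hw v, ← h1]
    simp

end Pool.Agent.S09473
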