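import Pool.Statements.S12123
import Pool.Agent.H66.RG.Upper
import Pool.Agent.H66.RG.Ends

set_option autoImplicit false
open Pool Pool.MP_e72b8f_co

namespace Pool.Agent.S12123

/-- For fixed d and β(n)=o(n), and any fixed nonempty H, every large enough connected d-degenerate n-vertex graph G of bandwidth at most β(n) has Ramsey number R(G,H) equal to (χ(H)−1)(n−1)+σ(H). -/
theorem result :
    ∀ d : ℕ, ∀ β : ℕ → ℕ,
      Filter.Tendsto (fun n : ℕ => (β n : ℝ) / (n : ℝ)) Filter.atTop (nhds 0) →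
      ∀ (m : ℕ) (H : SimpleGraph (Fin m)), 0 < m →
        ∃ n0 : ℕ, ∀ n : ℕ, n0 ≤ n →
          ∀ G : SimpleGraph (Fin n), G.Connected →
            (∀ S : Finset (Fin n), S.Nonempty →
              ∃ v ∈ S, ({w : Fin n | w ∈ S ∧ G.Adj v w} : Set (Fin n)).ncard ≤ d) →
            (∃ f : Fin n ≃ Fin n, ∀ u v : Fin n, G.Adj u v →
              |((f u : ℕ) : ℤ) - ((f v : ℕ) : ℤ)| ≤ (β n : ℤ)) →
            ∀ k s : ℕ, H.chromaticNumber = (k : ℕ∞) →
              (∃ c : Fin m → Fin k, (∀ u v : Fin m, H.Adj u v → c u ≠ c v) ∧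
                ∃ i : Fin k, ({u : Fin m | c u = i} : Set (Fin m)).ncard = s) →
              (∀ c : Fin m → Fin k, (∀ u v : Fin m, H.Adj u v → c u ≠ c v) →
                ∀ i : Fin k, s ≤ ({u : Fin m | c u = i} : Set (Fin m)).ncard) →
              (∀ F : SimpleGraph (Fin ((k - 1) * (n - 1) + s)),
                  G.IsContained F ∨ H.IsContained Fᶜ) ∧
              (∃ F : SimpleGraph (Fin ((k - 1) * (n - 1) + s - 1)),
                  ¬ G.IsContained F ∧ ¬ H.IsContained Fᶜ) := by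
  classical
  intro d β hβ m H hm
  -- thresholds for all parameters
  have hup : ∀ q σ : ℕ, ∃ n1 : ℕ, 0 < q → 0 < σ → σ ≤ m → ∀ n : ℕ, n1 ≤ n →
      ∀ (G : SimpleGraph (Fin n)), Pool.Agent.H66.RG.Degen G d → ∀ p : Fin n → ℕ,
      Pool.Agent.H66.RG.BW G p (β n) →
      ∀ (V : Type) [Fintype V] (Γ : SimpleGraph V), Fintype.card V = q * (n - 1) + σ →
      ¬ Pool.Agent.H66.RG.HasH Γ q σ m →
      ∃ φ : Fin n → V, Function.Injective φ ∧ ∀ u v, G.Adj u v → ¬ Γ.Adj (φ u) (φ v) := by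
    intro q σ
    by_cases hq : 0 < q ∧ 0 < σ ∧ σ ≤ m
    · obtain ⟨κb, hκb, hev⟩ := Pool.Agent.H66.RG.upper_bound d q σ m hq.1 hq.2.1 hq.2.2
      have hsmall : ∀ᶠ n : ℕ in Filter.atTop, (β n : ℝ) / n < κb :=
        (tendsto_order.1 hβ).2 κb hκb
      obtain ⟨n1, hn1⟩ := Filter.eventually_atTop.1
        ((hev.and hsmall).and (Filter.eventually_gt_atTop 0))
      refine ⟨n1, fun _ _ _ n hn G hG p hp V _ Γ hV hH => ?_⟩
      obtain ⟨⟨h1, h2⟩, h3⟩ := hn1 n hn
      have h4 : (0 : ℝ) < n := by exact_mod_cast h3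
      rw [div_lt_iff₀ h4] at h2
      exact h1 (β n) h2.le G hG p hp V Γ hV hH
    · exact ⟨0, fun h1 h2 h3 => absurd ⟨h1, h2, h3⟩ hq⟩
  choose n1 hn1 using hup
  refine ⟨m + 2 + ∑ q ∈ Finset.range m, ∑ σ ∈ Finset.range (m + 1), n1 q σ, ?_⟩
  intro n hn G hG hdeg hbw k s hχ hcol hmin
  have hnm : m + 2 ≤ n := le_trans (Nat.le_add_right _ _) hn
  obtain ⟨c, hc, i0, hi0⟩ := hcol
  have hk : 0 < k := lt_of_le_of_lt (Nat.zero_le _) (c ⟨0, hm⟩).2
  obtain ⟨q, rfl⟩ : ∃ q, k = q + 1 := ⟨k - 1, by omega⟩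
  have hncard : ∀ (c : Fin m → Fin (q + 1)) (i : Fin (q + 1)),
      ({u : Fin m | c u = i} : Set (Fin m)).ncard =
        (({u | c u = i} : Finset (Fin m))).card := by
    intro c i
    rw [← Set.ncard_coe_finset]
    congr 1
    ext u
    simp
  rw [hncard] at hi0
  have hs : 0 < s := Pool.Agent.H66.RG.class_pos H hχ c hc i0 hi0
  have hsm : s ≤ m := by
    rw [← hi0]
    refine (Finset.card_le_univ _).trans ?_
    rw [Fintype.card_fin]
  have hqm : q < m := by
    have h1 : H.Colorable m := by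
      have := SimpleGraph.colorable_of_fintype H
      rwa [Fintype.card_fin] at this
    have h2 := h1.chromaticNumber_le
    rw [hχ] at h2
    have h3 : q + 1 ≤ m := by exact_mod_cast h2
    omega
  have hnn : n1 q s ≤ n := by
    have h1 : n1 q s ≤ ∑ σ ∈ Finset.range (m + 1), n1 q σ :=
      Finset.single_le_sum (f := fun σ => n1 q σ) (fun _ _ => Nat.zero_le _)
        (Finset.mem_range.2 (by omega))
    have h2 : ∑ σ ∈ Finset.range (m + 1), n1 q σ ≤
        ∑ q ∈ Finset.range m, ∑ σ ∈ Finset.range (m + 1), n1 q σ :=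
      Finset.single_le_sum (f := fun q => ∑ σ ∈ Finset.range (m + 1), n1 q σ)
        (fun _ _ => Nat.zero_le _) (Finset.mem_range.2 hqm)
    omega
  constructor
  · intro F
    by_cases hF : Pool.Agent.H66.RG.HasH Fᶜ q s m
    · right
      exact Pool.Agent.H66.RG.contained_of_hasH H c hc i0 hi0 le_rfl Fᶜ hF hm
    · left
      have hq0 : 0 < q := by
        by_contra hq0
        have hq00 : q = 0 := by omega
        subst hq00
        apply hF
        refine ⟨Finset.univ, fun i => ∅, ?_, fun i => i.elim0, fun i => i.elim0, fun i => i.elim0⟩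
        rw [Finset.card_univ, Fintype.card_fin]
        simp
      obtain ⟨f, hf⟩ := hbw
      have hp : Pool.Agent.H66.RG.BW G (fun v => (f v : ℕ)) (β n) := by
        refine ⟨fun u v huv => f.injective (Fin.ext huv), fun v => (f v).2, ?_⟩
        intro u v huv
        have h1 := hf u v huv
        rw [abs_le] at h1
        omega
      have hdg : Pool.Agent.H66.RG.Degen G d := by
        intro S hS
        obtain ⟨v, hv, hvd⟩ := hdeg S hS
        refine ⟨v, hv, ?_⟩
        refine le_trans (le_of_eq ?_) hvd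
        unfold Pool.Agent.H66.RG.dg
        rw [← Set.ncard_coe_finset]
        congr 1
        ext w
        simp
      obtain ⟨φ, hφ1, hφ2⟩ := hn1 q s hq0 hs hsm n hnn G hdg _ hp _ Fᶜ
        (by rw [Fintype.card_fin]; simp) hF
      refine ⟨⟨⟨φ, ?_⟩, hφ1⟩⟩
      intro u v huv
      have h1 := hφ2 u v huv
      rw [SimpleGraph.compl_adj] at h1
      by_contra h2
      exact h1 ⟨fun h => huv.ne (hφ1 h), h2⟩
  · refine Pool.Agent.H66.RG.lower_graph (by omega) (by omega) hs (by omega) G hG H ?_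
    intro c' hc' i
    have h1 := hmin c' hc' i
    rw [hncard] at h1
    refine h1.trans (le_of_eq ?_)
    congr

end Pool.Agent.S12123
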